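import Pool.Agent.W2helper59.LN.Stm

/-! Piece P1 of S03669: existence and stability for `(t v)' = q`, `q' = -t F(t,v)`. -/

set_option autoImplicit false

namespace Pool.Agent.W2helper14.LN

open Set Filter Topology
open Pool.Agent.W2helper59.LN

/-! ### P1c -/

theorem zero_eq {E : Type*} [NormedAddCommGroup E] [NormedSpace ℝ E]
    (F : ℝ → E → E) (t1 : ℝ) (v q : ℝ → E) (h1 : 0 < t1) (h : SolOn F 0 t1 v q) : v 0 = q 0 := by
  have hmem : Ioo (0:ℝ) t1 ∈ 𝓝[>] (0:ℝ) := Ioo_mem_nhdsGT h1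
  have hIcc : Icc (0:ℝ) t1 ∈ 𝓝[≥] (0:ℝ) := Icc_mem_nhdsGE h1
  have hv0 : ContinuousWithinAt v (Ici 0) 0 :=
    (h.cv 0 ⟨le_rfl, h1.le⟩).mono_of_mem_nhdsWithin hIcc
  have hq0 : ContinuousWithinAt q (Ici 0) 0 :=
    (h.cq 0 ⟨le_rfl, h1.le⟩).mono_of_mem_nhdsWithin hIcc
  have hf : ContinuousWithinAt (fun s : ℝ => s • v s) (Ici 0) 0 :=
    continuousWithinAt_id.smul hv0
  have A : HasDerivWithinAt (fun s : ℝ => s • v s) (q 0) (Ici 0) 0 := by
    apply hasDerivWithinAt_Ici_of_tendsto_deriv (s := Ioo 0 t1)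
    · intro t ht
      exact (h.dv t ht).differentiableAt.differentiableWithinAt
    · exact hf.mono (fun x hx => hx.1.le)
    · exact hmem
    · have : Tendsto q (𝓝[>] (0:ℝ)) (𝓝 (q 0)) := hq0.mono_left (nhdsWithin_mono _ Ioi_subset_Ici_self)
      refine this.congr' ?_
      filter_upwards [hmem] with t ht
      exact (h.dv t ht).deriv.symm
  have B : HasDerivWithinAt (fun s : ℝ => s • v s) (v 0) (Ioi 0) 0 := by
    rw [hasDerivWithinAt_iff_tendsto_slope' (by simp)]
    have : Tendsto v (𝓝[>] (0:ℝ)) (𝓝 (v 0)) := hv0.mono_left (nhdsWithin_mono _ Ioi_subset_Ici_self)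
    refine this.congr' ?_
    filter_upwards [self_mem_nhdsWithin] with t ht
    have ht' : (0:ℝ) < t := ht
    rw [slope_def_module]
    simp only [zero_smul, sub_zero]
    rw [smul_smul, inv_mul_cancel₀ ht'.ne', one_smul]
  exact UniqueDiffWithinAt.eq_deriv (Ioi 0) (uniqueDiffWithinAt_Ioi 0) B (A.mono Ioi_subset_Ici_self)

theorem p1_zero : P1_zero := fun _ _ _ F t1 v q h1 h => zero_eq F t1 v q h1 h

/-! ### P1b -/

theorem stab_aux {E : Type*} [NormedAddCommGroup E] [NormedSpace ℝ E]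
    (K t0 t1 : ℝ) (hK : 0 ≤ K) (h0 : 0 ≤ t0) (h01 : t0 < t1)
    (F G : ℝ → E → E) (v q w r : ℝ → E) (σ : ℝ)
    (hv : SolOn F t0 t1 v q) (hw : SolOn G t0 t1 w r) (hσ : 0 ≤ σ)
    (hFG : ∀ t ∈ Icc t0 t1, ‖F t (v t) - G t (w t)‖ ≤ K * ‖v t - w t‖ + σ) :
    ∀ t ∈ Icc t0 t1, ‖q t - r t‖ ≤
      (t0 * ‖v t0 - w t0‖ + ‖q t0 - r t0‖) * Real.exp ((1 + K) * t1) +
        t1 * σ / (1 + K) * (Real.exp ((1 + K) * t1) - 1) := by
  have h1 : 0 < t1 := lt_of_le_of_lt h0 h01
  set P : ℝ → E := fun s => s • (v s - w s) with hP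
  set D : ℝ → E := fun s => q s - r s with hD
  have hPd : ∀ t ∈ Ioo t0 t1, HasDerivAt P (D t) t := by
    intro t ht
    have := (hv.dv t ht).sub (hw.dv t ht)
    refine this.congr_of_eventuallyEq (Eventually.of_forall fun s => ?_)
    simp [hP, smul_sub]
  have hDd : ∀ t ∈ Ioo t0 t1, HasDerivAt D (-(t • (F t (v t) - G t (w t)))) t := by
    intro t ht
    have := (hv.dq t ht).sub (hw.dq t ht)
    refine (this.congr_deriv ?_)
    rw [smul_sub]; abel
  have hPc : ContinuousOn P (Icc t0 t1) := continuousOn_id.smul (hv.cv.sub hw.cv)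
  have hDc : ContinuousOn D (Icc t0 t1) := hv.cq.sub hw.cq
  -- pair
  set Z : ℝ → E × E := fun s => (P s, D s) with hZ
  have hZc : ContinuousOn Z (Icc t0 t1) := hPc.prodMk hDc
  have hZd : ∀ t ∈ Ioo t0 t1, HasDerivAt Z (D t, -(t • (F t (v t) - G t (w t)))) t := by
    intro t ht
    exact (hPd t ht).prodMk (hDd t ht)
  have hbd : ∀ t ∈ Ioo t0 t1, ‖((D t, -(t • (F t (v t) - G t (w t)))) : E × E)‖ ≤
      (1 + K) * ‖Z t‖ + t1 * σ := by
    intro t ht
    have ht0 : 0 ≤ t := h0.trans ht.1.le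
    have hnP : ‖P t‖ ≤ ‖Z t‖ := norm_fst_le (Z t)
    have hnD : ‖D t‖ ≤ ‖Z t‖ := norm_snd_le (Z t)
    have hZ0 : 0 ≤ ‖Z t‖ := norm_nonneg _
    have hPn : ‖P t‖ = t * ‖v t - w t‖ := by
      rw [hP]; simp only [norm_smul, Real.norm_eq_abs, abs_of_nonneg ht0]
    rw [Prod.norm_def]
    apply max_le
    · simp only
      nlinarith [mul_nonneg hK hZ0, mul_nonneg h1.le hσ]
    · simp only [norm_neg, norm_smul, Real.norm_eq_abs, abs_of_nonneg ht0]
      have e1 := hFG t ⟨ht.1.le, ht.2.le⟩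
      have e2 : t * ‖F t (v t) - G t (w t)‖ ≤ t * (K * ‖v t - w t‖ + σ) :=
        mul_le_mul_of_nonneg_left e1 ht0
      have e3 : t * (K * ‖v t - w t‖ + σ) = K * ‖P t‖ + t * σ := by rw [hPn]; ring
      have e4 : t * σ ≤ t1 * σ := mul_le_mul_of_nonneg_right ht.2.le hσ
      have e5 : K * ‖P t‖ ≤ K * ‖Z t‖ := mul_le_mul_of_nonneg_left hnP hK
      linarith
  have hE1 : 0 ≤ Real.exp ((1 + K) * t1) - 1 := by
    have : 1 ≤ Real.exp ((1 + K) * t1) := Real.one_le_exp (by positivity)
    linarith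
  -- Gronwall on `[a,t1]`
  have key : ∀ a ∈ Ioo t0 t1, ∀ t ∈ Icc a t1, ‖Z t‖ ≤ ‖Z a‖ * Real.exp ((1 + K) * t1) +
        t1 * σ / (1 + K) * (Real.exp ((1 + K) * t1) - 1) := by
    intro a ha t ht
    have hg := norm_le_gronwallBound_of_norm_deriv_right_le (f := Z)
      (f' := fun t => (D t, -(t • (F t (v t) - G t (w t))))) (δ := ‖Z a‖) (K := 1 + K) (ε := t1 * σ)
      (a := a) (b := t1) (hZc.mono (Icc_subset_Icc_left ha.1.le))
      (fun x hx => (hZd x ⟨ha.1.trans_le hx.1, hx.2⟩).hasDerivWithinAt) le_rfl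
      (fun x hx => hbd x ⟨ha.1.trans_le hx.1, hx.2⟩) t ht
    rw [gronwallBound_of_K_ne_0 (by positivity)] at hg
    refine hg.trans ?_
    have hexp : Real.exp ((1 + K) * (t - a)) ≤ Real.exp ((1 + K) * t1) := by
      apply Real.exp_le_exp.2
      apply mul_le_mul_of_nonneg_left _ (by positivity)
      have := ha.1; have := ht.2; linarith
    have hc : 0 ≤ t1 * σ / (1 + K) := by positivity
    simp only
    gcongr
  intro t ht
  rcases eq_or_lt_of_le ht.1 with h | h
  · subst h
    have : ‖q t0 - r t0‖ ≤ (t0 * ‖v t0 - w t0‖ + ‖q t0 - r t0‖) * Real.exp ((1 + K) * t1) := by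
      have e1 : 1 ≤ Real.exp ((1 + K) * t1) := by linarith
      nlinarith [mul_nonneg h0 (norm_nonneg (v t0 - w t0)), norm_nonneg (q t0 - r t0)]
    have hc : 0 ≤ t1 * σ / (1 + K) * (Real.exp ((1 + K) * t1) - 1) := by positivity
    linarith
  · have hlim : Tendsto (fun a => ‖Z a‖ * Real.exp ((1 + K) * t1) +
        t1 * σ / (1 + K) * (Real.exp ((1 + K) * t1) - 1)) (𝓝[>] t0)
        (𝓝 (‖Z t0‖ * Real.exp ((1 + K) * t1) +
        t1 * σ / (1 + K) * (Real.exp ((1 + K) * t1) - 1))) := by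
      have hcw : ContinuousWithinAt Z (Ioi t0) t0 :=
        (hZc t0 ⟨le_rfl, h01.le⟩).mono_of_mem_nhdsWithin
          (mem_of_superset (Ioo_mem_nhdsGT h01) Ioo_subset_Icc_self)
      exact ((hcw.norm).mul_const _).add_const _
    have hev : ∀ᶠ a in 𝓝[>] t0, ‖Z t‖ ≤ ‖Z a‖ * Real.exp ((1 + K) * t1) +
        t1 * σ / (1 + K) * (Real.exp ((1 + K) * t1) - 1) := by
      filter_upwards [Ioo_mem_nhdsGT h] with a ha
      exact key a ⟨ha.1, ha.2.trans_le ht.2⟩ t ⟨ha.2.le, ht.2⟩
    have hfin := ge_of_tendsto hlim hev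
    have hDZ : ‖q t - r t‖ ≤ ‖Z t‖ := norm_snd_le (Z t)
    have hZ0 : ‖Z t0‖ ≤ t0 * ‖v t0 - w t0‖ + ‖q t0 - r t0‖ := by
      rw [Prod.norm_def]
      have e : ‖(Z t0).1‖ = t0 * ‖v t0 - w t0‖ := by
        simp only [hZ, hP, norm_smul, Real.norm_eq_abs, abs_of_nonneg h0]
      have e' : ‖(Z t0).2‖ = ‖q t0 - r t0‖ := rfl
      rw [e, e']
      apply max_le
      · linarith [norm_nonneg (q t0 - r t0)]
      · have := mul_nonneg h0 (norm_nonneg (v t0 - w t0)); linarith
    have e1 : 0 ≤ Real.exp ((1 + K) * t1) := (Real.exp_pos _).le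
    have := mul_le_mul_of_nonneg_right hZ0 e1
    linarith

/-- from a bound of `q - r` to a bound of `v - w` -/
theorem stab_v {E : Type*} [NormedAddCommGroup E] [NormedSpace ℝ E]
    (t0 t1 M : ℝ) (h0 : 0 ≤ t0) (h01 : t0 < t1)
    (F G : ℝ → E → E) (v q w r : ℝ → E)
    (hv : SolOn F t0 t1 v q) (hw : SolOn G t0 t1 w r) (hM : 0 ≤ M)
    (hq : ∀ t ∈ Icc t0 t1, ‖q t - r t‖ ≤ M) :
    ∀ t ∈ Icc t0 t1, ‖v t - w t‖ ≤ ‖v t0 - w t0‖ + M := by
  set P : ℝ → E := fun s => s • (v s - w s) with hP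
  have hPd : ∀ t ∈ Ioo t0 t1, HasDerivAt P (q t - r t) t := by
    intro t ht
    have := (hv.dv t ht).sub (hw.dv t ht)
    refine this.congr_of_eventuallyEq (Eventually.of_forall fun s => ?_)
    simp [hP, smul_sub]
  have hPc : ContinuousOn P (Icc t0 t1) := continuousOn_id.smul (hv.cv.sub hw.cv)
  intro t ht
  rcases eq_or_lt_of_le ht.1 with h | h
  · subst h; linarith
  · have ht0 : 0 < t := lt_of_le_of_lt h0 h
    have key : ∀ a ∈ Ioo t0 t, ‖P t - P a‖ ≤ M * (t - a) := by
      intro a ha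
      exact norm_image_sub_le_of_norm_deriv_right_le_segment (f := P) (f' := fun t => q t - r t)
        (a := a) (b := t1) (C := M) (hPc.mono (Icc_subset_Icc_left ha.1.le))
        (fun x hx => (hPd x ⟨ha.1.trans_le hx.1, hx.2⟩).hasDerivWithinAt)
        (fun x hx => hq x ⟨ha.1.le.trans hx.1, hx.2.le⟩) t ⟨ha.2.le, ht.2⟩
    have hcw : ContinuousWithinAt P (Ioi t0) t0 :=
      (hPc t0 ⟨le_rfl, h01.le⟩).mono_of_mem_nhdsWithin
        (mem_of_superset (Ioo_mem_nhdsGT h01) Ioo_subset_Icc_self)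
    have hfin : ‖P t - P t0‖ ≤ M * (t - t0) := by
      have l1 : Tendsto (fun a => ‖P t - P a‖) (𝓝[>] t0) (𝓝 ‖P t - P t0‖) :=
        (tendsto_const_nhds.sub hcw).norm
      have l2 : Tendsto (fun a => M * (t - a)) (𝓝[>] t0) (𝓝 (M * (t - t0))) := by
        apply Tendsto.mono_left _ nhdsWithin_le_nhds
        exact (continuous_const.mul (continuous_const.sub continuous_id)).tendsto t0
      refine le_of_tendsto_of_tendsto l1 l2 ?_
      filter_upwards [Ioo_mem_nhdsGT h] with a ha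
      exact key a ha
    have hPn : ‖P t‖ = t * ‖v t - w t‖ := by
      rw [hP]; simp only [norm_smul, Real.norm_eq_abs, abs_of_nonneg ht0.le]
    have hPn0 : ‖P t0‖ = t0 * ‖v t0 - w t0‖ := by
      rw [hP]; simp only [norm_smul, Real.norm_eq_abs, abs_of_nonneg h0]
    have h3 : ‖P t‖ ≤ ‖P t - P t0‖ + ‖P t0‖ := by
      have := norm_add_le (P t - P t0) (P t0)
      simpa using this
    rw [hPn, hPn0] at h3
    have h4 : t * ‖v t - w t‖ ≤ t * (‖v t0 - w t0‖ + M) := by
      have h5 : t0 * ‖v t0 - w t0‖ ≤ t * ‖v t0 - w t0‖ :=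
        mul_le_mul_of_nonneg_right h.le (norm_nonneg _)
      have h6 : M * (t - t0) ≤ M * t := mul_le_mul_of_nonneg_left (by linarith) hM
      nlinarith
    exact le_of_mul_le_mul_left h4 ht0

theorem p1_stab : P1_stab := by
  intro K t0 t1 hK h0 h01
  have h1 : 0 < t1 := lt_of_le_of_lt h0 h01
  set X := Real.exp ((1 + K) * t1) with hX
  have hX1 : 1 ≤ X := Real.one_le_exp (by positivity)
  refine ⟨1 + (t1 + 1) * X + t1 / (1 + K) * (X - 1), ?_, ?_⟩
  · have : 0 ≤ t1 / (1 + K) * (X - 1) := mul_nonneg (by positivity) (by linarith)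
    have : 0 ≤ (t1 + 1) * X := by positivity
    linarith
  intro E _ _ F G v q w r σ hv hw hσ hFG t ht
  have hq := stab_aux K t0 t1 hK h0 h01 F G v q w r σ hv hw hσ hFG
  set A := ‖v t0 - w t0‖ with hA
  set B := ‖q t0 - r t0‖ with hB
  have hA0 : 0 ≤ A := norm_nonneg _
  have hB0 : 0 ≤ B := norm_nonneg _
  set M := (t0 * A + B) * X + t1 * σ / (1 + K) * (X - 1) with hM
  have hc : 0 ≤ t1 / (1 + K) * (X - 1) := mul_nonneg (by positivity) (by linarith)
  have hM0 : 0 ≤ M := by
    have : 0 ≤ t1 * σ / (1 + K) * (X - 1) := mul_nonneg (by positivity) (by linarith)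
    have : 0 ≤ (t0 * A + B) * X := by positivity
    linarith
  have hMle : M ≤ ((t1 + 1) * X + t1 / (1 + K) * (X - 1)) * (A + B + σ) := by
    have e1 : (t0 * A + B) * X ≤ (t1 + 1) * X * (A + B + σ) := by
      have : t0 * A + B ≤ (t1 + 1) * (A + B + σ) := by
        have : t0 * A ≤ t1 * A := mul_le_mul_of_nonneg_right h01.le hA0
        nlinarith [mul_nonneg h1.le hB0, mul_nonneg h1.le hσ]
      nlinarith
    have e2 : t1 * σ / (1 + K) * (X - 1) ≤ t1 / (1 + K) * (X - 1) * (A + B + σ) := by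
      have : t1 * σ / (1 + K) * (X - 1) = t1 / (1 + K) * (X - 1) * σ := by ring
      rw [this]
      exact mul_le_mul_of_nonneg_left (by linarith) hc
    rw [hM, add_mul]
    linarith
  constructor
  · have := stab_v t0 t1 M h0 h01 F G v q w r hv hw hM0 (fun s hs => hq s hs) t ht
    refine this.trans ?_
    have : (1 + (t1 + 1) * X + t1 / (1 + K) * (X - 1)) * (A + B + σ) =
      (A + B + σ) + ((t1 + 1) * X + t1 / (1 + K) * (X - 1)) * (A + B + σ) := by ring
    rw [this]
    linarith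
  · refine (hq t ht).trans ?_
    have : (1 + (t1 + 1) * X + t1 / (1 + K) * (X - 1)) * (A + B + σ) =
      (A + B + σ) + ((t1 + 1) * X + t1 / (1 + K) * (X - 1)) * (A + B + σ) := by ring
    rw [this]
    linarith

/-! ### P1a -/

theorem p1_exists : P1_exists := by
  intro E _ _ _ F K t0 t1 v0 q0 h0 h01 hF hL hvq
  have h1 : 0 < t1 := lt_of_le_of_lt h0 h01
  -- the operator
  set g : C(Icc t0 t1, E) → ℝ → E := fun v s => F s (IccExtend h01.le v s) with hg
  have hgc : ∀ v, Continuous (g v) := fun v =>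
    hF.comp (continuous_id.prodMk (v.continuous.Icc_extend'))
  set J : C(Icc t0 t1, E) → ℝ → E := fun v t => ∫ s in t0..t, s ^ 2 • g v s with hJ
  set I : C(Icc t0 t1, E) → ℝ → E := fun v t => ∫ s in t0..t, s • g v s with hI
  have hJc0 : ∀ v, Continuous (fun s : ℝ => s ^ 2 • g v s) := fun v => (continuous_pow 2).smul (hgc v)
  have hIc0 : ∀ v, Continuous (fun s : ℝ => s • g v s) := fun v => continuous_id.smul (hgc v)
  have hJd : ∀ v t, HasDerivAt (J v) (t ^ 2 • g v t) t := fun v t =>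
    intervalIntegral.integral_hasDerivAt_right ((hJc0 v).intervalIntegrable _ _)
      ((hJc0 v).stronglyMeasurableAtFilter _ _) (hJc0 v).continuousAt
  have hId : ∀ v t, HasDerivAt (I v) (t • g v t) t := fun v t =>
    intervalIntegral.integral_hasDerivAt_right ((hIc0 v).intervalIntegrable _ _)
      ((hIc0 v).stronglyMeasurableAtFilter _ _) (hIc0 v).continuousAt
  have hJc : ∀ v, Continuous (J v) := fun v =>
    continuous_iff_continuousAt.2 fun t => (hJd v t).continuousAt
  have hIc : ∀ v, Continuous (I v) := fun v =>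
    continuous_iff_continuousAt.2 fun t => (hId v t).continuousAt
  set Φ : C(Icc t0 t1, E) → ℝ → E := fun v t =>
    q0 + (t⁻¹ * t0) • (v0 - q0) - I v t + t⁻¹ • J v t with hΦ
  -- continuity on the interval
  have hΦc : ∀ v, ContinuousOn (Φ v) (Icc t0 t1) := by
    intro v t ht
    rcases eq_or_lt_of_le (h0.trans ht.1) with h | h
    · -- t = 0
      have ht0 : t0 = 0 := le_antisymm (by rw [h]; exact ht.1) h0
      subst ht0
      subst h
      have hsimp : Φ v = fun t => q0 - I v t + t⁻¹ • J v t := by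
        funext t; simp [hΦ]
      rw [hsimp]
      have hA : ContinuousWithinAt (fun t => q0 - I v t) (Icc 0 t1) 0 :=
        (continuous_const.sub (hIc v)).continuousWithinAt
      refine hA.add ?_
      -- bound
      obtain ⟨M, hM⟩ := (isCompact_Icc (a := (0:ℝ)) (b := t1)).exists_bound_of_continuousOn
        (hgc v).continuousOn
      have hM0 : 0 ≤ M := (norm_nonneg _).trans (hM 0 ⟨le_rfl, h1.le⟩)
      have hb : ∀ t ∈ Icc (0:ℝ) t1, ‖t⁻¹ • J v t‖ ≤ M * t ^ 2 := by
        intro t ht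
        rcases eq_or_lt_of_le ht.1 with h | h
        · subst h; simp
        · have e : ‖J v t‖ ≤ (t ^ 2 * M) * |t - 0| := by
            apply intervalIntegral.norm_integral_le_of_norm_le_const
            intro x hx
            rw [uIoc_of_le ht.1] at hx
            rw [norm_smul, norm_pow, Real.norm_eq_abs, abs_of_nonneg hx.1.le]
            apply mul_le_mul _ (hM x ⟨hx.1.le, hx.2.trans ht.2⟩) (norm_nonneg _) (by positivity)
            exact pow_le_pow_left₀ hx.1.le hx.2 2
          rw [norm_smul, norm_inv, Real.norm_eq_abs, abs_of_pos h]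
          rw [sub_zero, abs_of_pos h] at e
          calc t⁻¹ * ‖J v t‖ ≤ t⁻¹ * ((t ^ 2 * M) * t) := by gcongr
            _ = M * t ^ 2 := by field_simp
      have hval : (0:ℝ)⁻¹ • J v 0 = 0 := by simp
      show Tendsto (fun t : ℝ => t⁻¹ • J v t) (𝓝[Icc 0 t1] 0) (𝓝 ((0:ℝ)⁻¹ • J v 0))
      rw [hval]
      apply squeeze_zero_norm' (a := fun t => M * t ^ 2)
      · filter_upwards [self_mem_nhdsWithin] with t ht
        exact hb t ht
      · have : Tendsto (fun t : ℝ => M * t ^ 2) (𝓝 0) (𝓝 (M * 0 ^ 2)) :=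
          (continuous_const.mul (continuous_pow 2)).tendsto 0
        simp only [ne_eq, OfNat.ofNat_ne_zero, not_false_eq_true, zero_pow, mul_zero] at this
        exact this.mono_left nhdsWithin_le_nhds
    · have hinv : ContinuousAt (fun t : ℝ => t⁻¹) t := continuousAt_inv₀ h.ne'
      apply ContinuousAt.continuousWithinAt
      exact ((continuousAt_const.add ((hinv.mul continuousAt_const).smul continuousAt_const)).sub
        (hIc v).continuousAt).add (hinv.smul (hJc v).continuousAt)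
  set T : C(Icc t0 t1, E) → C(Icc t0 t1, E) := fun v =>
    ⟨fun t => Φ v t, (hΦc v).domRestrict⟩ with hT
  have hTap : ∀ v (t : Icc t0 t1), T v t = Φ v t := fun v t => rfl
  -- Volterra estimate
  have hvol : ∀ v w (t : ℝ), t ∈ Icc t0 t1 → ∀ (ρ : ℝ → ℝ), Continuous ρ →
      (∀ s : Icc t0 t1, ‖v s - w s‖ ≤ ρ s) →
      ‖Φ v t - Φ w t‖ ≤ ∫ s in t0..t, (t1 * K) * ρ s := by
    intro v w t ht ρ hρ hvw
    have e1 : Φ v t - Φ w t = ∫ s in t0..t, (t⁻¹ * s ^ 2 - s) • (g v s - g w s) := by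
      have : ∀ u : C(Icc t0 t1, E), - I u t + t⁻¹ • J u t =
          ∫ s in t0..t, (t⁻¹ * s ^ 2 - s) • g u s := by
        intro u
        rw [hI, hJ]
        simp only
        rw [← intervalIntegral.integral_smul, ← intervalIntegral.integral_neg,
          ← intervalIntegral.integral_add]
        · congr 1; funext s; rw [sub_smul, mul_smul]; abel
        · exact ((hIc0 u).neg).intervalIntegrable _ _
        · exact ((hJc0 u).const_smul _).intervalIntegrable _ _
      have e2 : Φ v t - Φ w t = (- I v t + t⁻¹ • J v t) - (- I w t + t⁻¹ • J w t) := by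
        simp only [hΦ]; abel
      rw [e2, this v, this w, ← intervalIntegral.integral_sub]
      · congr 1; funext s; rw [smul_sub]
      · have : Continuous (fun s : ℝ => (t⁻¹ * s ^ 2 - s) • g v s) :=
          ((continuous_const.mul (continuous_pow 2)).sub continuous_id).smul (hgc v)
        exact this.intervalIntegrable _ _
      · have : Continuous (fun s : ℝ => (t⁻¹ * s ^ 2 - s) • g w s) :=
          ((continuous_const.mul (continuous_pow 2)).sub continuous_id).smul (hgc w)
        exact this.intervalIntegrable _ _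
    rw [e1]
    apply intervalIntegral.norm_integral_le_of_norm_le ht.1
    · apply Eventually.of_forall
      intro s hs
      have hs0 : 0 < s := lt_of_le_of_lt h0 hs.1
      have ht0 : 0 < t := hs0.trans_le hs.2
      have hsI : s ∈ Icc t0 t1 := ⟨hs.1.le, hs.2.trans ht.2⟩
      rw [norm_smul, Real.norm_eq_abs]
      have a1 : |t⁻¹ * s ^ 2 - s| ≤ t1 := by
        have : t⁻¹ * s ^ 2 - s = - (s * (1 - s / t)) := by field_simp; ring
        rw [this, abs_neg, abs_of_nonneg]
        · have : s / t ≤ 1 := (div_le_one ht0).2 hs.2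
          have h2 : 0 ≤ s / t := by positivity
          have : s * (1 - s / t) ≤ s * 1 := mul_le_mul_of_nonneg_left (by linarith) hs0.le
          have := hsI.2
          linarith
        · have : s / t ≤ 1 := (div_le_one ht0).2 hs.2
          exact mul_nonneg hs0.le (by linarith)
      have a2 : ‖g v s - g w s‖ ≤ K * ρ s := by
        have := (hL s).dist_le_mul (IccExtend h01.le v s) (IccExtend h01.le w s)
        rw [dist_eq_norm, dist_eq_norm] at this
        refine this.trans ?_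
        rw [IccExtend_of_mem _ _ hsI, IccExtend_of_mem _ _ hsI]
        exact mul_le_mul_of_nonneg_left (hvw ⟨s, hsI⟩) K.2
      calc |t⁻¹ * s ^ 2 - s| * ‖g v s - g w s‖ ≤ t1 * (K * ρ s) :=
            mul_le_mul a1 a2 (norm_nonneg _) h1.le
        _ = (t1 * K) * ρ s := by ring
    · exact ((continuous_const.mul hρ)).intervalIntegrable _ _
  have hiter : ∀ n : ℕ, ∀ v w (t : Icc t0 t1), ‖(T^[n] v) t - (T^[n] w) t‖ ≤
      dist v w * ((t1 * K) ^ n * ((t : ℝ) - t0) ^ n / n.factorial) := by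
    intro n
    induction n with
    | zero =>
      intro v w t
      simp only [Function.iterate_zero, id_eq, pow_zero, Nat.factorial_zero, Nat.cast_one, mul_one,
        div_one]
      rw [← dist_eq_norm]
      exact ContinuousMap.dist_apply_le_dist t
    | succ n ih =>
      intro v w t
      rw [Function.iterate_succ_apply', Function.iterate_succ_apply', hTap, hTap]
      have hcont : Continuous (fun s : ℝ => dist v w * ((t1 * K) ^ n * (s - t0) ^ n / n.factorial)) := by
        fun_prop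
      refine (hvol _ _ t t.2 _ hcont (fun s => ih v w s)).trans (le_of_eq ?_)
      have hd : ∀ s, HasDerivAt (fun s : ℝ => dist v w * ((t1 * K) ^ (n + 1) * (s - t0) ^ (n + 1) /
          (n + 1).factorial)) (t1 * K * (dist v w * ((t1 * K) ^ n * (s - t0) ^ n / n.factorial))) s := by
        intro s
        have b1 : HasDerivAt (fun s : ℝ => (s - t0) ^ (n + 1)) ((n + 1 : ℕ) * (s - t0) ^ n * 1) s := by
          have := ((hasDerivAt_id s).sub_const t0).fun_pow (n + 1)
          simpa using this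
        have b2 := ((b1.const_mul ((t1 * K) ^ (n + 1))).div_const ((n + 1).factorial : ℝ)).const_mul (dist v w)
        refine b2.congr_deriv ?_
        rw [Nat.factorial_succ]
        have : ((n.factorial : ℕ) : ℝ) ≠ 0 := by positivity
        push_cast
        rw [pow_succ (t1 * (K : ℝ)) n]
        field_simp
      rw [intervalIntegral.integral_eq_sub_of_hasDerivAt (fun s _ => hd s)
        ((continuous_const.mul hcont).intervalIntegrable _ _)]
      simp
  -- contraction
  obtain ⟨n, hn⟩ : ∃ n : ℕ, ((t1 * K) * (t1 - t0)) ^ n / n.factorial < 1 := by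
    have := (FloorSemiring.tendsto_pow_div_factorial_atTop ((t1 * K) * (t1 - t0))).eventually
      (gt_mem_nhds (zero_lt_one))
    exact this.exists
  have hk0 : 0 ≤ ((t1 * K) * (t1 - t0)) ^ n / n.factorial := by
    have : 0 ≤ t1 - t0 := by linarith
    have : 0 ≤ (K : ℝ) := K.2
    positivity
  have hcontr : ContractingWith ⟨((t1 * K) * (t1 - t0)) ^ n / n.factorial, hk0⟩ T^[n] := by
    refine ⟨by exact_mod_cast hn, LipschitzWith.of_dist_le_mul ?_⟩
    intro v w
    rw [ContinuousMap.dist_le (by positivity)]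
    intro t
    rw [dist_eq_norm]
    refine (hiter n v w t).trans ?_
    rw [mul_comm]
    apply mul_le_mul_of_nonneg_right _ dist_nonneg
    show (t1 * K) ^ n * ((t : ℝ) - t0) ^ n / n.factorial ≤ ((t1 * K) * (t1 - t0)) ^ n / n.factorial
    have hK0 : 0 ≤ (K : ℝ) := K.2
    have ha := t.2.1
    have hb := t.2.2
    have hc : ((t : ℝ) - t0) ^ n ≤ (t1 - t0) ^ n := pow_le_pow_left₀ (by linarith) (by linarith) n
    rw [mul_pow (t1 * (K : ℝ)) (t1 - t0) n]
    apply div_le_div_of_nonneg_right _ (by positivity)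
    exact mul_le_mul_of_nonneg_left hc (by positivity)
  obtain ⟨v, hfix⟩ : ∃ v, T v = v := ⟨_, hcontr.isFixedPt_fixedPoint_iterate⟩
  have hvΦ : ∀ t (ht : t ∈ Icc t0 t1), v ⟨t, ht⟩ = Φ v t := by
    intro t ht
    conv_lhs => rw [← hfix]
    rfl
  refine ⟨IccExtend h01.le v, fun t => q0 - I v t, ?_, ?_, ?_⟩
  · refine ⟨?_, ?_, ?_, ?_⟩
    · exact (v.continuous.Icc_extend').continuousOn
    · exact (continuous_const.sub (hIc v)).continuousOn
    · intro t ht
      have ht0 : 0 < t := lt_of_le_of_lt h0 ht.1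
      have hloc : (fun s : ℝ => s • IccExtend h01.le v s) =ᶠ[𝓝 t]
          fun s => s • q0 + t0 • (v0 - q0) - s • I v s + J v s := by
        filter_upwards [Ioo_mem_nhds ht.1 ht.2] with s hs
        have hs0 : 0 < s := lt_of_le_of_lt h0 hs.1
        have hsI : s ∈ Icc t0 t1 := ⟨hs.1.le, hs.2.le⟩
        rw [IccExtend_of_mem _ _ hsI, hvΦ s hsI]
        simp only [hΦ]
        rw [smul_add, smul_sub, smul_add, smul_smul, smul_smul, ← mul_assoc, mul_inv_cancel₀ hs0.ne',
          one_mul, one_smul]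
      refine HasDerivAt.congr_of_eventuallyEq ?_ hloc
      have d1 : HasDerivAt (fun s : ℝ => s • q0) ((1 : ℝ) • q0) t := (hasDerivAt_id t).smul_const q0
      have d2 : HasDerivAt (fun s : ℝ => s • I v s) (t • (t • g v t) + (1:ℝ) • I v t) t :=
        (hasDerivAt_id t).smul (hId v t)
      have d3 := ((d1.add_const (t0 • (v0 - q0))).sub d2).add (hJd v t)
      refine d3.congr_deriv ?_
      rw [one_smul, one_smul, smul_smul, ← pow_two]
      abel
    · intro t ht
      have hsI : t ∈ Icc t0 t1 := ⟨ht.1.le, ht.2.le⟩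
      have := (hId v t).const_sub q0
      exact this
  · rw [IccExtend_of_mem _ _ ⟨le_rfl, h01.le⟩, hvΦ t0 ⟨le_rfl, h01.le⟩]
    simp only [hΦ, hI, hJ, intervalIntegral.integral_same, sub_zero, smul_zero, add_zero]
    rcases eq_or_lt_of_le h0 with h | h
    · rw [hvq h.symm]; simp
    · rw [inv_mul_cancel₀ h.ne', one_smul]; abel
  · simp [hI]

end Pool.Agent.W2helper14.LN
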